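import Pool.Agent.Work.SUnit.Defs

/-!
The ring of `S`-integers of a number field has place data: the infinite places (with their
multiplicities) and the finite places in `S`.
Proof of `prod_ge`: product formula `NumberField.prod_abs_eq_one` and `|c|_v ≤ 1` for finite `v`
outside `S`. Proof of `northcott`: the height of `x` is bounded.
-/

set_option autoImplicit false

namespace Pool.Agent.Work.SUnit

open NumberField IsDedekindDomain

variable (F : Type) [Field F] [NumberField F] (S : Finset (HeightOneSpectrum (𝓞 F)))

/-- the absolute values attached to the infinite places and the places in `S` -/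
noncomputable def placeAbs : (InfinitePlace F ⊕ {p : HeightOneSpectrum (𝓞 F) // p ∈ S}) →
    AbsoluteValue F ℝ
  | Sum.inl w => w.1
  | Sum.inr p => (FinitePlace.mk p.1).1

/-- the multiplicities -/
noncomputable def placeMult : (InfinitePlace F ⊕ {p : HeightOneSpectrum (𝓞 F) // p ∈ S}) → ℕ
  | Sum.inl w => w.mult
  | Sum.inr _ => 1

variable {F S}

theorem mk_le_one {c : F} (hc : c ∈ ((S : Set (HeightOneSpectrum (𝓞 F))).integer F).toSubring)
    {p : HeightOneSpectrum (𝓞 F)} (hp : p ∉ S) : FinitePlace.mk p c ≤ 1 := by
  have h1 : p.valuation F c ≤ 1 := by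
    have := (S : Set (HeightOneSpectrum (𝓞 F))).integer_valuation_le_one F ⟨c, hc⟩
      (v := p) (by simpa using hp)
    simpa using this
  rw [FinitePlace.mk_apply, FinitePlace.norm_embedding, NumberField.HeightOneSpectrum.adicAbv_def]
  have h2 := (WithZeroMulInt.toNNReal_strictMono (by
    exact_mod_cast NumberField.HeightOneSpectrum.one_lt_absNorm_nnreal p :
      1 < (Ideal.absNorm p.asIdeal : NNReal))).monotone h1
  rw [map_one] at h2
  exact_mod_cast h2

theorem exists_placeData (F : Type) [Field F] [NumberField F]
    (S : Finset (HeightOneSpectrum (𝓞 F))) :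
    Nonempty (PlaceData F ((S : Set (HeightOneSpectrum (𝓞 F))).integer F).toSubring) := by
  classical
  refine ⟨{ ι := InfinitePlace F ⊕ {p : HeightOneSpectrum (𝓞 F) // p ∈ S}
            fin := inferInstance
            v := placeAbs F S
            m := placeMult F S
            m_pos := ?_
            prod_ge := ?_
            northcott := ?_ }⟩
  · rintro (w | p)
    · exact w.mult_pos
    · exact le_rfl
  · intro c hc hc0
    rw [Fintype.prod_sum_type]
    have h1 := prod_abs_eq_one (K := F) hc0
    have hfs : (fun p : HeightOneSpectrum (𝓞 F) => FinitePlace.mk p c).mulSupport.Finite := by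
      have h2 := FinitePlace.hasFiniteMulSupport (K := F) hc0
      have h3 : (fun p : HeightOneSpectrum (𝓞 F) => FinitePlace.mk p c).mulSupport =
          (FinitePlace.equivHeightOneSpectrum (K := F)).symm ⁻¹'
            (fun w : FinitePlace F => w c).mulSupport := by
        ext p
        rfl
      rw [h3]
      exact Set.Finite.preimage ((FinitePlace.equivHeightOneSpectrum (K := F)).symm.injective.injOn)
        h2
    have h4 : ∏ᶠ w : FinitePlace F, w c = ∏ᶠ p : HeightOneSpectrum (𝓞 F), FinitePlace.mk p c := by
      rw [← finprod_comp_equiv (FinitePlace.equivHeightOneSpectrum (K := F)).symm]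
      rfl
    have h5 : ∏ᶠ p : HeightOneSpectrum (𝓞 F), FinitePlace.mk p c ≤
        ∏ p : {p : HeightOneSpectrum (𝓞 F) // p ∈ S}, FinitePlace.mk p.1 c := by
      rw [finprod_eq_prod_of_mulSupport_subset (s := hfs.toFinset ∪ S) _ (by
        intro p hp
        simp only [Finset.coe_union, Set.Finite.coe_toFinset, Set.mem_union]
        exact Or.inl hp)]
      rw [← Finset.prod_sdiff (s₁ := S) (Finset.subset_union_right)]
      rw [← Finset.prod_coe_sort S]
      refine mul_le_of_le_one_left (Finset.prod_nonneg fun _ _ => apply_nonneg _ _) ?_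
      refine Finset.prod_le_one (fun _ _ => apply_nonneg _ _) ?_
      intro p hp
      exact mk_le_one hc (Finset.mem_sdiff.1 hp).2
    calc (1 : ℝ) = (∏ w : InfinitePlace F, w c ^ w.mult) * ∏ᶠ w : FinitePlace F, w c := h1.symm
      _ ≤ (∏ w : InfinitePlace F, w c ^ w.mult) *
          ∏ p : {p : HeightOneSpectrum (𝓞 F) // p ∈ S}, FinitePlace.mk p.1 c := by
        rw [h4]
        exact mul_le_mul_of_nonneg_left h5 (Finset.prod_nonneg fun w _ => pow_nonneg (apply_nonneg _ _) _)
      _ = _ := by
        congr 1
        refine Finset.prod_congr rfl fun p _ => ?_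
        show _ = (FinitePlace.mk p.1).1 c ^ 1
        rw [pow_one]
        rfl
  · intro B
    set B' : ℝ := max B 1 with hB'
    have hB1 : 1 ≤ B' := le_max_right _ _
    refine (finite_setOfPred_mulHeight₁_le (K := F)
      ((∏ w : InfinitePlace F, B' ^ w.mult) * ∏ p : {p : HeightOneSpectrum (𝓞 F) // p ∈ S}, B')).subset ?_
    rintro x ⟨hx, hxB⟩
    simp only [Set.mem_ofPred_eq]
    rw [mulHeight₁_eq]
    have h4 : ∏ᶠ w : FinitePlace F, max (w x) 1 =
        ∏ᶠ p : HeightOneSpectrum (𝓞 F), max (FinitePlace.mk p x) 1 := by
      rw [← finprod_comp_equiv (FinitePlace.equivHeightOneSpectrum (K := F)).symm]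
      rfl
    have h5 : ∏ᶠ p : HeightOneSpectrum (𝓞 F), max (FinitePlace.mk p x) 1 =
        ∏ p : {p : HeightOneSpectrum (𝓞 F) // p ∈ S}, max (FinitePlace.mk p.1 x) 1 := by
      rw [finprod_eq_prod_of_mulSupport_subset (s := S) _ (by
        intro p hp
        by_contra hpS
        exact hp (max_eq_right (mk_le_one hx hpS)))]
      rw [← Finset.prod_coe_sort S]
    rw [h4, h5]
    refine mul_le_mul ?_ ?_ ?_ ?_
    · refine Finset.prod_le_prod (fun w _ => by positivity) fun w _ => ?_
      refine pow_le_pow_left₀ (by positivity) ?_ _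
      exact max_le_max (hxB (Sum.inl w)) le_rfl
    · refine Finset.prod_le_prod (fun w _ => by positivity) fun w _ => ?_
      exact max_le_max (hxB (Sum.inr w)) le_rfl
    · exact Finset.prod_nonneg fun _ _ => by positivity
    · exact Finset.prod_nonneg fun _ _ => by positivity

end Pool.Agent.Work.SUnit
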