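import Pool.Agent.Work.SUnit.Heights
import Pool.Agent.Work.SUnit.NumberFieldData

/-!
# The unit equation in two variables over number fields (Siegel, Mahler, Lang)

For a number field `F`, a finite set `S` of finite places and `a, b ∈ F` non-zero the equation
`a t + b s = 1` has only finitely many solutions in units `t`, `s` of the ring of `S`-integers.
The proof is that of Beukers and Schlickewei (Padé approximations and the gap principle).
-/

set_option autoImplicit false

noncomputable section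

namespace Pool.Agent.Work.SUnit

open NumberField IsDedekindDomain

variable (F : Type) [Field F] [NumberField F]

/-- finiteness of the solutions of `x + y = 1` -/
theorem finite_sol_numberField (S : Finset (HeightOneSpectrum (𝓞 F))) :
    {x : F | Sol ((S : Set (HeightOneSpectrum (𝓞 F))).integer F).toSubring x}.Finite := by
  obtain ⟨D⟩ := exists_placeData F S
  exact finite_sol D

/-- enlarging `S` such that a given non-zero element becomes a unit -/
theorem exists_enlarge (S : Finset (HeightOneSpectrum (𝓞 F))) (a b : F) :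
    ∃ T : Finset (HeightOneSpectrum (𝓞 F)), S ⊆ T ∧
      a ∈ (T : Set (HeightOneSpectrum (𝓞 F))).integer F ∧
      a⁻¹ ∈ (T : Set (HeightOneSpectrum (𝓞 F))).integer F ∧
      b ∈ (T : Set (HeightOneSpectrum (𝓞 F))).integer F ∧
      b⁻¹ ∈ (T : Set (HeightOneSpectrum (𝓞 F))).integer F := by
  classical
  have fin : ∀ k : F, ∃ U : Finset (HeightOneSpectrum (𝓞 F)), ∀ v, v ∉ U →
      v.valuation F k ≤ 1 := by
    intro k
    refine ⟨(HeightOneSpectrum.Support.finite (𝓞 F) k).toFinset, fun v hv => ?_⟩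
    rw [Set.Finite.mem_toFinset] at hv
    exact not_lt.1 hv
  obtain ⟨U1, h1⟩ := fin a
  obtain ⟨U2, h2⟩ := fin a⁻¹
  obtain ⟨U3, h3⟩ := fin b
  obtain ⟨U4, h4⟩ := fin b⁻¹
  refine ⟨S ∪ (U1 ∪ U2 ∪ (U3 ∪ U4)), Finset.subset_union_left, ?_, ?_, ?_, ?_⟩
  · intro v hv
    exact h1 v fun h => hv (by simp [h])
  · intro v hv
    exact h2 v fun h => hv (by simp [h])
  · intro v hv
    exact h3 v fun h => hv (by simp [h])
  · intro v hv
    exact h4 v fun h => hv (by simp [h])

/-- Finiteness of the number of solutions of the unit equation `a t + b s = 1`. -/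
theorem finite_unit_pairs (S : Finset (HeightOneSpectrum (𝓞 F))) (a b : F) (ha : a ≠ 0)
    (hb : b ≠ 0) :
    {p : (S : Set (HeightOneSpectrum (𝓞 F))).integer F ×
        (S : Set (HeightOneSpectrum (𝓞 F))).integer F |
      IsUnit p.1 ∧ IsUnit p.2 ∧ a * (p.1 : F) + b * (p.2 : F) = 1}.Finite := by
  obtain ⟨T, hST, a1, a2, b1, b2⟩ := exists_enlarge F S a b
  have hmono : ∀ x : F, x ∈ (S : Set (HeightOneSpectrum (𝓞 F))).integer F →
      x ∈ (T : Set (HeightOneSpectrum (𝓞 F))).integer F :=
    fun x hx v hv => hx v fun h => hv (hST h)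
  have unit_inv : ∀ t : (S : Set (HeightOneSpectrum (𝓞 F))).integer F, IsUnit t →
      (t : F) ≠ 0 ∧ (t : F)⁻¹ ∈ (S : Set (HeightOneSpectrum (𝓞 F))).integer F := by
    intro t ht
    obtain ⟨s, hs⟩ := ht.exists_right_inv
    have h1 : (t : F) * (s : F) = 1 := by
      have := congrArg (Subtype.val) hs
      simpa using this
    refine ⟨left_ne_zero_of_mul_eq_one h1, ?_⟩
    rw [inv_eq_of_mul_eq_one_right h1]
    exact s.2
  refine Set.Finite.of_finite_image (f := fun p => a * (p.1 : F))
    ((finite_sol_numberField F T).subset ?_) ?_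
  · rintro _ ⟨⟨t, s⟩, ⟨ht, hs, h⟩, rfl⟩
    obtain ⟨ht0, ht1⟩ := unit_inv t ht
    obtain ⟨hs0, hs1⟩ := unit_inv s hs
    have e : 1 - a * (t : F) = b * (s : F) := by
      have h' : a * (t : F) + b * (s : F) = 1 := h
      rw [← h']; ring
    refine ⟨mul_ne_zero ha ht0, ?_, ?_, ?_, ?_⟩
    · intro h2
      have h2' : a * (t : F) = 1 := h2
      rw [h2', sub_self] at e
      exact mul_ne_zero hb hs0 e.symm
    · exact mul_mem a1 (hmono _ t.2)
    · show (a * (t : F))⁻¹ ∈ _
      rw [mul_inv]
      exact mul_mem a2 (hmono _ ht1)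
    · show (1 - a * (t : F))⁻¹ ∈ _
      rw [e, mul_inv]
      exact mul_mem b2 (hmono _ hs1)
  · rintro ⟨t, s⟩ ⟨-, -, h⟩ ⟨t', s'⟩ ⟨-, -, h'⟩ he
    have he' : a * (t : F) = a * (t' : F) := he
    have h1 : (t : F) = (t' : F) := mul_left_cancel₀ ha he'
    have h2 : b * (s : F) = b * (s' : F) := by
      have e1 : a * (t : F) + b * (s : F) = 1 := h
      have e2 : a * (t' : F) + b * (s' : F) = 1 := h'
      rw [← he'] at e2
      exact add_left_cancel (e1.trans e2.symm)
    have h3 : (s : F) = (s' : F) := mul_left_cancel₀ hb h2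
    exact Prod.ext (Subtype.ext h1) (Subtype.ext h3)

/-- For every non-zero integer `c` there are only finitely many units `t` such that `t + c` is a
unit. -/
theorem finite_unit_add (S : Finset (HeightOneSpectrum (𝓞 F))) (c : ℤ) (hc : c ≠ 0) :
    {t : (S : Set (HeightOneSpectrum (𝓞 F))).integer F | IsUnit t ∧ IsUnit (t + c)}.Finite := by
  have hc' : (c : F) ≠ 0 := Int.cast_ne_zero.2 hc
  refine Set.Finite.of_finite_image (f := fun t => (t, t + (c : _)))
    ((finite_unit_pairs F S (-(c : F)⁻¹) ((c : F)⁻¹) (neg_ne_zero.2 (inv_ne_zero hc'))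
      (inv_ne_zero hc')).subset ?_) ?_
  · rintro _ ⟨t, ⟨h1, h2⟩, rfl⟩
    refine ⟨h1, h2, ?_⟩
    have : (((t + (c : _) : (S : Set (HeightOneSpectrum (𝓞 F))).integer F)) : F) =
        (t : F) + (c : F) := by push_cast; rfl
    show -(c : F)⁻¹ * (t : F) + (c : F)⁻¹ * (((t + (c : _) :
      (S : Set (HeightOneSpectrum (𝓞 F))).integer F)) : F) = 1
    rw [this]
    field_simp
    ring
  · intro t _ t' _ h
    exact (Prod.mk.inj h).1

end Pool.Agent.Work.SUnit
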