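import Pool.Agent.Work.SUnit.Pade

/-!
Bounds for the polynomials `W` (binomial coefficients: `(N+m choose N) (2N-m choose N) ≤ 8 ^ N`,
and there are `N + 1 ≤ 2 ^ N` terms).
-/

set_option autoImplicit false

namespace Pool.Agent.Work.SUnit

open Finset

theorem W_mem {K : Type*} [Field K] (R : Subring K) (N : ℕ) (x y : K) (hx : x ∈ R) (hy : y ∈ R) :
    W K N x y ∈ R := by
  unfold W
  refine R.sum_mem fun m _ => ?_
  exact R.mul_mem (R.mul_mem (R.mul_mem (natCast_mem R _) (natCast_mem R _)) (R.pow_mem hx _))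
    (R.pow_mem hy _)

theorem abs_natCast_le {K : Type*} [Field K] (v : AbsoluteValue K ℝ) (n : ℕ) : v (n : K) ≤ n := by
  induction n with
  | zero => simp
  | succ n ih =>
    push_cast
    refine (v.add_le _ _).trans ?_
    rw [v.map_one]
    linarith

theorem abs_W_le {K : Type*} [Field K] (v : AbsoluteValue K ℝ) (N : ℕ) (x y : K) (B : ℝ)
    (hx : v x ≤ B) (hy : v y ≤ B) : v (W K N x y) ≤ 16 ^ N * B ^ N := by
  have hB : 0 ≤ B := (apply_nonneg v x).trans hx
  unfold W
  refine (v.sum_le _ _).trans ?_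
  have hterm : ∀ m ∈ range (N + 1),
      v (((N + m).choose N : K) * ((2 * N - m).choose N : K) * x ^ (N - m) * y ^ m) ≤
        8 ^ N * B ^ N := by
    intro m hm
    have hm' : m ≤ N := Nat.lt_succ_iff.1 (mem_range.1 hm)
    rw [v.map_mul, v.map_mul, v.map_mul, v.map_pow, v.map_pow]
    have h1 : v (((N + m).choose N : ℕ) : K) ≤ 2 ^ (N + m) :=
      (abs_natCast_le v _).trans (by exact_mod_cast Nat.choose_le_two_pow _ _)
    have h2 : v (((2 * N - m).choose N : ℕ) : K) ≤ 2 ^ (2 * N - m) :=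
      (abs_natCast_le v _).trans (by exact_mod_cast Nat.choose_le_two_pow _ _)
    calc v (((N + m).choose N : ℕ) : K) * v (((2 * N - m).choose N : ℕ) : K) * v x ^ (N - m) *
          v y ^ m ≤ 2 ^ (N + m) * 2 ^ (2 * N - m) * B ^ (N - m) * B ^ m := by
            gcongr
      _ = 8 ^ N * B ^ N := by
            rw [← pow_add, mul_assoc, ← pow_add]
            have e1 : N + m + (2 * N - m) = 3 * N := by omega
            have e2 : N - m + m = N := by omega
            rw [e1, e2, pow_mul]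
            norm_num
  refine (sum_le_card_nsmul _ _ _ hterm).trans ?_
  rw [card_range, nsmul_eq_mul]
  have h3 : ((N + 1 : ℕ) : ℝ) ≤ 2 ^ N := by
    have : N + 1 ≤ 2 ^ N := Nat.lt_two_pow_self
    exact_mod_cast this
  have h4 : (16 : ℝ) ^ N = 2 ^ N * 8 ^ N := by rw [← mul_pow]; norm_num
  rw [h4]
  have h5 : (0 : ℝ) ≤ 8 ^ N * B ^ N := by positivity
  nlinarith [mul_le_mul_of_nonneg_right h3 h5]

end Pool.Agent.Work.SUnit
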