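import Mathlib

/-!
Abstract data for the two-variable unit equation: a subring `R` of a field `K` with finitely many
absolute values such that non-zero elements of `R` have product at least one and such that `R` has
the Northcott property.
-/

set_option autoImplicit false

namespace Pool.Agent.Work.SUnit

/-- Finitely many absolute values with multiplicities satisfying the two properties of the ring of
`S`-integers of a number field. -/
structure PlaceData (K : Type) [Field K] (R : Subring K) where
  /-- index type of the places -/
  ι : Type
  /-- finitely many places -/
  fin : Fintype ι
  /-- the absolute values -/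
  v : ι → AbsoluteValue K ℝ
  /-- the multiplicities -/
  m : ι → ℕ
  m_pos : ∀ w, 1 ≤ m w
  prod_ge : ∀ c ∈ R, c ≠ 0 → 1 ≤ ∏ w, (v w c) ^ (m w)
  northcott : ∀ B : ℝ, {x : K | x ∈ R ∧ ∀ w, v w x ≤ B}.Finite

end Pool.Agent.Work.SUnit
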