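import Pool.Agent.Work.SUnit.Bounds
import Pool.Agent.Work.SUnit.Defs

/-!
The gap inequality between two solutions of the unit equation.
-/

set_option autoImplicit false

noncomputable section

namespace Pool.Agent.Work.SUnit

open Finset

attribute [instance] PlaceData.fin

variable {K : Type} [Field K]

/-- solutions of the unit equation `x + (1 - x) = 1` in units of `R` -/
structure Sol (R : Subring K) (x : K) : Prop where
  ne0 : x ≠ 0
  ne1 : x ≠ 1
  mem : x ∈ R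
  inv : x⁻¹ ∈ R
  inv' : (1 - x)⁻¹ ∈ R

theorem Sol.ne {R : Subring K} {x : K} (h : Sol R x) : 1 - x ≠ 0 := sub_ne_zero.2 h.ne1.symm

theorem Sol.mem' {R : Subring K} {x : K} (h : Sol R x) : 1 - x ∈ R := R.sub_mem R.one_mem h.mem

/-- local estimate -/
theorem local_gap [CharZero K] (v : AbsoluteValue K ℝ) (x ξ η : K) (M : ℕ) (hx0 : x ≠ 0)
    (hx1 : x ≠ 1) (hξ : x ^ (2 * M + 1) * ξ + (1 - x) ^ (2 * M + 1) * η = 1) :
    (max 1 (max (v x) (v (1 - x)))) ^ (M + 1) *
      v (ξ * W K M x 1 - η * W K M (-1) (-(1 - x))) ≤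
      16 ^ (M + 1) * max 1 (max (v ξ) (v η)) := by
  set H : ℝ := max 1 (max (v x) (v (1 - x))) with hH
  set E : ℝ := max 1 (max (v ξ) (v η)) with hE
  have hH1 : 1 ≤ H := le_max_left _ _
  have hHx : v x ≤ H := (le_max_left _ _).trans (le_max_right _ _)
  have hHy : v (1 - x) ≤ H := (le_max_right _ _).trans (le_max_right _ _)
  have hE1 : 1 ≤ E := le_max_left _ _
  have hEx : v ξ ≤ E := (le_max_left _ _).trans (le_max_right _ _)
  have hEy : v η ≤ E := (le_max_right _ _).trans (le_max_right _ _)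
  set A := W K M (-1) (-(1 - x)) with hA
  set B := W K M x 1 with hB
  set Cc := W K M (1 - x) (-x) with hC
  have hneg1 : v (-1) = 1 := by rw [v.map_neg, v.map_one]
  have bA : v A ≤ 16 ^ M * H ^ M := abs_W_le v M _ _ H (by rw [hneg1]; exact hH1)
    (by rw [v.map_neg]; exact hHy)
  have bB : v B ≤ 16 ^ M * H ^ M := abs_W_le v M _ _ H hHx (by rw [v.map_one]; exact hH1)
  have bC : v Cc ≤ 16 ^ M * H ^ M := abs_W_le v M _ _ H hHy (by rw [v.map_neg]; exact hHx)
  have hp := pade x hx0 hx1 M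
  rw [← hA, ← hB, ← hC] at hp
  set Δ := ξ * B - η * A with hΔ
  have d1 : x ^ (2 * M + 1) * Δ = B - η * Cc := by
    rw [hΔ]; linear_combination B * hξ - η * hp
  have d2 : (1 - x) ^ (2 * M + 1) * Δ = ξ * Cc - A := by
    rw [hΔ]; linear_combination ξ * hp - A * hξ
  set T : ℝ := 16 ^ M * H ^ M with hT
  have hT0 : 0 ≤ T := by positivity
  have b0 : v Δ ≤ 2 * T * E := by
    calc v Δ ≤ v (ξ * B) + v (η * A) := by
          rw [hΔ, sub_eq_add_neg]
          refine (v.add_le _ _).trans ?_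
          rw [v.map_neg]
      _ = v ξ * v B + v η * v A := by rw [v.map_mul, v.map_mul]
      _ ≤ E * T + E * T := by
          gcongr
      _ = 2 * T * E := by ring
  have b1 : v (x ^ (2 * M + 1) * Δ) ≤ 2 * T * E := by
    rw [d1]
    calc v (B - η * Cc) ≤ v B + v (η * Cc) := by
          rw [sub_eq_add_neg]
          refine (v.add_le _ _).trans ?_
          rw [v.map_neg]
      _ = 1 * v B + v η * v Cc := by rw [v.map_mul, one_mul]
      _ ≤ E * T + E * T := by
          gcongr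
      _ = 2 * T * E := by ring
  have b2 : v ((1 - x) ^ (2 * M + 1) * Δ) ≤ 2 * T * E := by
    rw [d2]
    calc v (ξ * Cc - A) ≤ v (ξ * Cc) + v A := by
          rw [sub_eq_add_neg]
          refine (v.add_le _ _).trans ?_
          rw [v.map_neg]
      _ = v ξ * v Cc + 1 * v A := by rw [v.map_mul, one_mul]
      _ ≤ E * T + E * T := by
          gcongr
      _ = 2 * T * E := by ring
  rw [v.map_mul, v.map_pow] at b1 b2
  have hmax : H ^ (2 * M + 1) * v Δ ≤ 2 * T * E := by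
    rcases le_total (max (v x) (v (1 - x))) 1 with h1 | h1
    · have : H = 1 := max_eq_left h1
      rw [this, one_pow, one_mul]
      exact b0
    · have h2 : H = max (v x) (v (1 - x)) := max_eq_right h1
      rcases le_total (v (1 - x)) (v x) with h3 | h3
      · rw [h2, max_eq_left h3]; exact b1
      · rw [h2, max_eq_right h3]; exact b2
  have hHM : 0 < H ^ M := by positivity
  have e1 : H ^ (2 * M + 1) * v Δ = H ^ M * (H ^ (M + 1) * v Δ) := by ring
  have e2 : 2 * T * E = H ^ M * (2 * 16 ^ M * E) := by rw [hT]; ring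
  rw [e1, e2] at hmax
  have h3 := le_of_mul_le_mul_left hmax hHM
  refine h3.trans ?_
  have : (2 : ℝ) * 16 ^ M ≤ 16 ^ (M + 1) := by
    rw [pow_succ]
    have : (0 : ℝ) < 16 ^ M := by positivity
    linarith
  gcongr

/-- logarithmic height of a pair -/
def PlaceData.ht {R : Subring K} (D : PlaceData K R) (a b : K) : ℝ :=
  ∑ w, (D.m w : ℝ) * Real.log (max 1 (max (D.v w a) (D.v w b)))

/-- the constant -/
def PlaceData.cst {R : Subring K} (D : PlaceData K R) : ℝ :=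
  ∑ w, (D.m w : ℝ) * Real.log 16

theorem sum_log_nonneg {R : Subring K} (D : PlaceData K R) (c : K) (hc : c ∈ R) (h0 : c ≠ 0) :
    0 ≤ ∑ w, (D.m w : ℝ) * Real.log (D.v w c) := by
  have h1 := D.prod_ge c hc h0
  have h2 : ∀ w ∈ (Finset.univ : Finset D.ι), (D.v w c) ^ (D.m w) ≠ 0 := fun w _ =>
    pow_ne_zero _ ((D.v w).ne_zero h0)
  have h3 := Real.log_nonneg h1
  rw [Real.log_prod h2] at h3
  simpa only [Real.log_pow] using h3

theorem gap_of_ne [CharZero K] {R : Subring K} (D : PlaceData K R) (x u : K) (hx : Sol R x)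
    (hu : Sol R u) (M : ℕ)
    (hΔ : u / x ^ (2 * M + 1) * W K M x 1 -
      (1 - u) / (1 - x) ^ (2 * M + 1) * W K M (-1) (-(1 - x)) ≠ 0) :
    ((M : ℝ) + 1) * D.ht x (1 - x) ≤
      D.ht (u / x ^ (2 * M + 1)) ((1 - u) / (1 - x) ^ (2 * M + 1)) + D.cst * ((M : ℝ) + 1) := by
  set ξ := u / x ^ (2 * M + 1) with hξ
  set η := (1 - u) / (1 - x) ^ (2 * M + 1) with hη
  have hxp : x ^ (2 * M + 1) ≠ 0 := pow_ne_zero _ hx.ne0
  have hyp : (1 - x) ^ (2 * M + 1) ≠ 0 := pow_ne_zero _ hx.ne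
  have hrel : x ^ (2 * M + 1) * ξ + (1 - x) ^ (2 * M + 1) * η = 1 := by
    rw [hξ, hη, mul_div_cancel₀ _ hxp, mul_div_cancel₀ _ hyp]
    ring
  set Δ := ξ * W K M x 1 - η * W K M (-1) (-(1 - x)) with hΔdef
  have hξR : ξ ∈ R := by
    rw [hξ, div_eq_mul_inv, ← inv_pow]
    exact R.mul_mem hu.mem (R.pow_mem hx.inv _)
  have hηR : η ∈ R := by
    rw [hη, div_eq_mul_inv, ← inv_pow]
    exact R.mul_mem hu.mem' (R.pow_mem hx.inv' _)
  have hΔR : Δ ∈ R := R.sub_mem (R.mul_mem hξR (W_mem R M _ _ hx.mem R.one_mem))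
    (R.mul_mem hηR (W_mem R M _ _ (R.neg_mem R.one_mem) (R.neg_mem hx.mem')))
  have hs := sum_log_nonneg D Δ hΔR hΔ
  have hloc : ∀ w, ((M : ℝ) + 1) * Real.log (max 1 (max (D.v w x) (D.v w (1 - x)))) +
      Real.log (D.v w Δ) ≤ ((M : ℝ) + 1) * Real.log 16 +
        Real.log (max 1 (max (D.v w ξ) (D.v w η))) := by
    intro w
    have h := local_gap (D.v w) x ξ η M hx.ne0 hx.ne1 hrel
    have hpos : 0 < (max 1 (max (D.v w x) (D.v w (1 - x)))) ^ (M + 1) * D.v w Δ :=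
      mul_pos (by positivity) ((D.v w).pos hΔ)
    have h2 := Real.log_le_log hpos h
    rw [Real.log_mul (by positivity) ((D.v w).ne_zero hΔ), Real.log_pow,
      Real.log_mul (by positivity) (by positivity), Real.log_pow] at h2
    push_cast at h2
    exact h2
  have hsum : ∑ w, (D.m w : ℝ) * (((M : ℝ) + 1) *
      Real.log (max 1 (max (D.v w x) (D.v w (1 - x)))) + Real.log (D.v w Δ)) ≤
      ∑ w, (D.m w : ℝ) * (((M : ℝ) + 1) * Real.log 16 +
        Real.log (max 1 (max (D.v w ξ) (D.v w η)))) :=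
    Finset.sum_le_sum fun w _ => mul_le_mul_of_nonneg_left (hloc w) (Nat.cast_nonneg _)
  simp only [mul_add, Finset.sum_add_distrib] at hsum
  unfold PlaceData.ht PlaceData.cst
  rw [Finset.mul_sum, Finset.sum_mul]
  have e1 : ∑ w, ((M : ℝ) + 1) * ((D.m w : ℝ) *
      Real.log (max 1 (max (D.v w x) (D.v w (1 - x))))) =
      ∑ w, (D.m w : ℝ) * (((M : ℝ) + 1) *
        Real.log (max 1 (max (D.v w x) (D.v w (1 - x))))) :=
    Finset.sum_congr rfl fun w _ => by ring
  have e2 : ∑ w, (D.m w : ℝ) * Real.log 16 * ((M : ℝ) + 1) =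
      ∑ w, (D.m w : ℝ) * (((M : ℝ) + 1) * Real.log 16) :=
    Finset.sum_congr rfl fun w _ => by ring
  rw [e1, e2]
  linarith

theorem exists_gap [CharZero K] {R : Subring K} (D : PlaceData K R) (x u : K) (hx : Sol R x)
    (hu : Sol R u) (hx' : x ^ 2 - x + 1 ≠ 0) (N : ℕ) :
    ∃ M : ℕ, N ≤ M ∧ M ≤ N + 1 ∧ ((M : ℝ) + 1) * D.ht x (1 - x) ≤
      D.ht (u / x ^ (2 * M + 1)) ((1 - u) / (1 - x) ^ (2 * M + 1)) + D.cst * ((M : ℝ) + 1) := by
  by_cases h0 : u / x ^ (2 * N + 1) * W K N x 1 -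
      (1 - u) / (1 - x) ^ (2 * N + 1) * W K N (-1) (-(1 - x)) = 0
  · by_cases h1 : u / x ^ (2 * (N + 1) + 1) * W K (N + 1) x 1 -
        (1 - u) / (1 - x) ^ (2 * (N + 1) + 1) * W K (N + 1) (-1) (-(1 - x)) = 0
    · exfalso
      have hxp : x ^ (2 * N + 1) ≠ 0 := pow_ne_zero _ hx.ne0
      have hyp : (1 - x) ^ (2 * N + 1) ≠ 0 := pow_ne_zero _ hx.ne
      have hxp' : x ^ (2 * (N + 1) + 1) ≠ 0 := pow_ne_zero _ hx.ne0
      have hyp' : (1 - x) ^ (2 * (N + 1) + 1) ≠ 0 := pow_ne_zero _ hx.ne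
      apply pade_indep x hx.ne0 hx.ne1 hx' N
      apply mul_left_cancel₀ hu.ne
      rw [sub_eq_zero, div_mul_eq_mul_div, div_mul_eq_mul_div, div_eq_div_iff hxp hyp] at h0
      rw [sub_eq_zero, div_mul_eq_mul_div, div_mul_eq_mul_div, div_eq_div_iff hxp' hyp'] at h1
      linear_combination (-(((1 - x) ^ (2 * (N + 1) + 1) * W K (N + 1) x 1))) * h0 +
        (((1 - x) ^ (2 * N + 1) * W K N x 1)) * h1
    · exact ⟨N + 1, Nat.le_succ N, le_rfl, gap_of_ne D x u hx hu (N + 1) h1⟩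
  · exact ⟨N, le_rfl, Nat.le_succ N, gap_of_ne D x u hx hu N h0⟩

end Pool.Agent.Work.SUnit
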