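import Mathlib

/-!
A compactness argument: a subset of a finite dimensional normed space satisfying the gap
inequality is bounded.

Proof. Cover the unit sphere by finitely many small balls. If `G` is unbounded, there are elements
of `G` of arbitrarily large norm with direction in a fixed ball. Choose `v` among them with
`‖v‖ > 16 C + 1` and then `u` with `‖u‖ = t ‖v‖`, `t > 10 d`, whose direction is within
`1 / (64 d)` of that of `v`.
With `2 N + 1 ≤ t < 2 N + 3` and `M` from the hypothesis, `|t - (2 M + 1)| ≤ 2` and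
`‖u - (2 M + 1) v‖ ≤ ‖v‖ (t / (64 d) + 2)`, so `(15 / 16) (M + 1) ≤ (2 M + 3) / 64 + 2 d`,
which is false as `M + 1 ≥ (t - 1) / 2 ≥ 4.5 d`.
-/

set_option autoImplicit false

namespace Pool.Agent.Work.SUnit

theorem bounded_of_gap {E : Type*} [NormedAddCommGroup E] [NormedSpace ℝ E] [ProperSpace E]
    (G : Set E) (d C : ℝ) (hd : 1 ≤ d) (hC : 0 ≤ C)
    (h : ∀ v ∈ G, ∀ u ∈ G, ∀ N : ℕ, ∃ M : ℕ, N ≤ M ∧ M ≤ N + 1 ∧
      ((M : ℝ) + 1) * ‖v‖ ≤ d * ‖u - (2 * (M : ℝ) + 1) • v‖ + C * ((M : ℝ) + 1)) :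
    ∃ B : ℝ, ∀ g ∈ G, ‖g‖ ≤ B := by
  classical
  by_contra hcon
  push Not at hcon
  have hε : (0 : ℝ) < 1 / (128 * d) := by positivity
  obtain ⟨t, ht, htc⟩ := Metric.totallyBounded_iff.1
    (isCompact_sphere (0 : E) 1).totallyBounded (1 / (128 * d)) hε
  have hdir : ∃ c ∈ t, ∀ B : ℝ, ∃ g ∈ G, B < ‖g‖ ∧ dist (‖g‖⁻¹ • g) c < 1 / (128 * d) := by
    by_contra hno
    push Not at hno
    choose! B hB using hno
    obtain ⟨b, hb⟩ := (ht.image B).bddAbove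
    obtain ⟨g, hg, hgb⟩ := hcon (max b 0)
    have hg0 : 0 < ‖g‖ := lt_of_le_of_lt (le_max_right _ _) hgb
    have hs : ‖g‖⁻¹ • g ∈ Metric.sphere (0 : E) 1 := by
      rw [mem_sphere_zero_iff_norm, norm_smul, norm_inv, norm_norm, inv_mul_cancel₀ hg0.ne']
    have := htc hs
    simp only [Set.mem_iUnion, Metric.mem_ball, exists_prop] at this
    obtain ⟨c, hc, hcd⟩ := this
    have h1 := hB c hc g hg (lt_of_le_of_lt (hb (Set.mem_image_of_mem B hc))
      (lt_of_le_of_lt (le_max_left _ _) hgb))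
    exact absurd hcd (not_lt.2 h1)
  obtain ⟨c, -, hc⟩ := hdir
  obtain ⟨v, hvG, hvn, hvc⟩ := hc (16 * C + 1)
  obtain ⟨u, huG, hun, huc⟩ := hc (10 * d * ‖v‖)
  have hv0 : 0 < ‖v‖ := lt_of_le_of_lt (by positivity) hvn
  have hu0 : 0 < ‖u‖ := lt_of_le_of_lt (by positivity) hun
  set s : ℝ := ‖u‖ / ‖v‖ with hs
  have hs0 : 10 * d < s := by rw [hs, lt_div_iff₀ hv0]; exact hun
  set v' : E := ‖v‖⁻¹ • v with hv'
  set u' : E := ‖u‖⁻¹ • u with hu'
  have hvv : v = ‖v‖ • v' := by rw [hv', smul_smul, mul_inv_cancel₀ hv0.ne', one_smul]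
  have huu : u = (s * ‖v‖) • u' := by
    rw [hs, div_mul_cancel₀ _ hv0.ne', hu', smul_smul, mul_inv_cancel₀ hu0.ne', one_smul]
  have hv'n : ‖v'‖ = 1 := by rw [hv', norm_smul, norm_inv, norm_norm, inv_mul_cancel₀ hv0.ne']
  have hclose : ‖u' - v'‖ ≤ 1 / (64 * d) := by
    have h1 : dist u' v' ≤ dist u' c + dist v' c := dist_triangle_right _ _ _
    rw [dist_eq_norm] at h1
    have h2 : 1 / (64 * d) = 1 / (128 * d) + 1 / (128 * d) := by field_simp; norm_num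
    rw [h2]
    exact h1.trans (add_le_add huc.le hvc.le)
  -- the integer `N`
  set N : ℕ := ⌊(s - 1) / 2⌋₊ with hN
  have hs1 : 0 ≤ (s - 1) / 2 := by linarith
  have hN1 : (N : ℝ) ≤ (s - 1) / 2 := Nat.floor_le hs1
  have hN2 : (s - 1) / 2 < N + 1 := Nat.lt_floor_add_one _
  obtain ⟨M, hM1, hM2, hM⟩ := h v hvG u huG N
  have hM1' : (N : ℝ) ≤ M := by exact_mod_cast hM1
  have hM2' : (M : ℝ) ≤ N + 1 := by exact_mod_cast hM2
  have habs : |s - (2 * (M : ℝ) + 1)| ≤ 2 := by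
    rw [abs_le]; constructor <;> linarith
  have hnorm : ‖u - (2 * (M : ℝ) + 1) • v‖ ≤ ‖v‖ * (s / (64 * d) + 2) := by
    have h1 : u - (2 * (M : ℝ) + 1) • v =
        ‖v‖ • (s • (u' - v') + (s - (2 * (M : ℝ) + 1)) • v') := by
      calc u - (2 * (M : ℝ) + 1) • v = (s * ‖v‖) • u' - (2 * (M : ℝ) + 1) • (‖v‖ • v') := by
            rw [← huu, ← hvv]
        _ = _ := by module
    rw [h1, norm_smul, norm_norm]
    refine mul_le_mul_of_nonneg_left ?_ hv0.le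
    refine (norm_add_le _ _).trans ?_
    rw [norm_smul, norm_smul, hv'n, mul_one, Real.norm_eq_abs, Real.norm_eq_abs,
      abs_of_pos (by linarith : 0 < s)]
    refine add_le_add ?_ habs
    calc s * ‖u' - v'‖ ≤ s * (1 / (64 * d)) := mul_le_mul_of_nonneg_left hclose (by linarith)
      _ = s / (64 * d) := by ring
  have h2 : ((M : ℝ) + 1) * ‖v‖ ≤ d * (‖v‖ * (s / (64 * d) + 2)) + C * ((M : ℝ) + 1) :=
    hM.trans (add_le_add_left (mul_le_mul_of_nonneg_left hnorm (by linarith)) _)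
  have h3 : C * ((M : ℝ) + 1) ≤ ((M : ℝ) + 1) * ‖v‖ / 16 := by
    have : 16 * C ≤ ‖v‖ := by linarith
    have hM0 : 0 ≤ (M : ℝ) + 1 := by positivity
    nlinarith
  have h4 : d * (‖v‖ * (s / (64 * d) + 2)) = ‖v‖ * (s / 64 + 2 * d) := by
    field_simp
  rw [h4] at h2
  have h5 : (15 / 16) * ((M : ℝ) + 1) ≤ s / 64 + 2 * d := by
    have h6 : ‖v‖ * ((15 / 16) * ((M : ℝ) + 1)) ≤ ‖v‖ * (s / 64 + 2 * d) := by nlinarith
    exact le_of_mul_le_mul_left h6 hv0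
  nlinarith

end Pool.Agent.Work.SUnit
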