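import Pool.Agent.Work.SUnit.Gap
import Pool.Agent.Work.SUnit.Geometry

/-!
Comparison of the height with the norm of the logarithmic vector, and finiteness of the number of
solutions of the unit equation.
-/

set_option autoImplicit false

noncomputable section

namespace Pool.Agent.Work.SUnit

open Finset

variable {K : Type} [Field K] {R : Subring K}

/-- logarithmic vector of a pair -/
def PlaceData.lv (D : PlaceData K R) (a b : K) : D.ι → ℝ × ℝ :=
  fun w => ((D.m w : ℝ) * Real.log (D.v w a), (D.m w : ℝ) * Real.log (D.v w b))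

theorem lv_twist (D : PlaceData K R) (x u : K) (hx : x ≠ 0) (hx1 : 1 - x ≠ 0) (hu : u ≠ 0)
    (hu1 : 1 - u ≠ 0) (M : ℕ) :
    D.lv (u / x ^ (2 * M + 1)) ((1 - u) / (1 - x) ^ (2 * M + 1)) =
      D.lv u (1 - u) - (2 * (M : ℝ) + 1) • D.lv x (1 - x) := by
  have key : ∀ (w : D.ι) (a b : K), a ≠ 0 → b ≠ 0 →
      (D.m w : ℝ) * Real.log (D.v w (a / b ^ (2 * M + 1))) =
        (D.m w : ℝ) * Real.log (D.v w a) -
          (2 * (M : ℝ) + 1) * ((D.m w : ℝ) * Real.log (D.v w b)) := by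
    intro w a b ha hb
    rw [map_div₀, map_pow, Real.log_div ((D.v w).ne_zero ha)
      (pow_ne_zero _ ((D.v w).ne_zero hb)), Real.log_pow]
    push_cast
    ring
  funext w
  simp only [PlaceData.lv, Pi.sub_apply, Pi.smul_apply]
  ext
  · simp only [Prod.fst_sub, Prod.smul_fst, smul_eq_mul]
    exact key w u x hu hx
  · simp only [Prod.snd_sub, Prod.smul_snd, smul_eq_mul]
    exact key w (1 - u) (1 - x) hu1 hx1

theorem ht_le (D : PlaceData K R) (a b : K) :
    D.ht a b ≤ (Fintype.card D.ι : ℝ) * ‖D.lv a b‖ := by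
  have h : ∀ w ∈ (Finset.univ : Finset D.ι),
      (D.m w : ℝ) * Real.log (max 1 (max (D.v w a) (D.v w b))) ≤ ‖D.lv a b‖ := by
    intro w _
    have h1 : ‖D.lv a b w‖ ≤ ‖D.lv a b‖ := norm_le_pi_norm _ w
    have h2 : ‖(D.lv a b w).1‖ ≤ ‖D.lv a b w‖ := norm_fst_le _
    have h3 : ‖(D.lv a b w).2‖ ≤ ‖D.lv a b w‖ := norm_snd_le _
    have h4 : (D.lv a b w).1 ≤ ‖D.lv a b‖ := (le_abs_self _).trans (h2.trans h1)
    have h5 : (D.lv a b w).2 ≤ ‖D.lv a b‖ := (le_abs_self _).trans (h3.trans h1)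
    simp only [PlaceData.lv] at h4 h5
    rcases le_total (max (D.v w a) (D.v w b)) 1 with h6 | h6
    · rw [max_eq_left h6, Real.log_one, mul_zero]
      exact norm_nonneg _
    · rw [max_eq_right h6]
      rcases le_total (D.v w b) (D.v w a) with h7 | h7
      · rw [max_eq_left h7]; exact h4
      · rw [max_eq_right h7]; exact h5
  have h2 := Finset.sum_le_card_nsmul _ _ _ h
  unfold PlaceData.ht
  rw [nsmul_eq_mul, Finset.card_univ] at h2
  exact h2

theorem sum_log_eq_zero (D : PlaceData K R) (c : K) (hc : c ∈ R) (hc' : c⁻¹ ∈ R) (h0 : c ≠ 0) :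
    ∑ w, (D.m w : ℝ) * Real.log (D.v w c) = 0 := by
  have h1 := sum_log_nonneg D c hc h0
  have h2 := sum_log_nonneg D c⁻¹ hc' (inv_ne_zero h0)
  simp only [map_inv₀, Real.log_inv, mul_neg, Finset.sum_neg_distrib] at h2
  linarith

theorem abs_le_sum {ι : Type*} [Fintype ι] (s t : ι → ℝ) (hs : ∑ w, s w = 0)
    (ht : ∀ w, 0 ≤ t w) (hst : ∀ w, s w ≤ t w) (w : ι) : |s w| ≤ ∑ w, t w := by
  classical
  have h1 : t w ≤ ∑ w, t w := Finset.single_le_sum (fun i _ => ht i) (Finset.mem_univ w)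
  rw [abs_le]
  constructor
  · have h2 := Finset.add_sum_erase Finset.univ s (Finset.mem_univ w)
    have h3 := Finset.add_sum_erase Finset.univ t (Finset.mem_univ w)
    have h4 : ∑ x ∈ Finset.univ.erase w, s x ≤ ∑ x ∈ Finset.univ.erase w, t x :=
      Finset.sum_le_sum fun i _ => hst i
    have := ht w
    linarith
  · exact (hst w).trans h1

theorem norm_lv_le (D : PlaceData K R) (x : K) (hx : Sol R x) :
    ‖D.lv x (1 - x)‖ ≤ D.ht x (1 - x) := by
  have ht0 : ∀ w, 0 ≤ (D.m w : ℝ) * Real.log (max 1 (max (D.v w x) (D.v w (1 - x)))) :=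
    fun w => mul_nonneg (Nat.cast_nonneg _) (Real.log_nonneg (le_max_left _ _))
  have hsum0 : 0 ≤ D.ht x (1 - x) := Finset.sum_nonneg fun w _ => ht0 w
  rw [pi_norm_le_iff_of_nonneg hsum0]
  intro w
  rw [Prod.norm_def]
  refine max_le ?_ ?_
  · refine abs_le_sum (fun w => (D.m w : ℝ) * Real.log (D.v w x)) _
      (sum_log_eq_zero D x hx.mem hx.inv hx.ne0) ht0 (fun w => ?_) w
    refine mul_le_mul_of_nonneg_left ?_ (Nat.cast_nonneg _)
    exact Real.log_le_log ((D.v w).pos hx.ne0) ((le_max_left _ _).trans (le_max_right _ _))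
  · refine abs_le_sum (fun w => (D.m w : ℝ) * Real.log (D.v w (1 - x))) _
      (sum_log_eq_zero D (1 - x) hx.mem' hx.inv' hx.ne) ht0 (fun w => ?_) w
    refine mul_le_mul_of_nonneg_left ?_ (Nat.cast_nonneg _)
    exact Real.log_le_log ((D.v w).pos hx.ne) ((le_max_right _ _).trans (le_max_right _ _))

theorem cst_nonneg (D : PlaceData K R) : 0 ≤ D.cst :=
  Finset.sum_nonneg fun _ _ => mul_nonneg (Nat.cast_nonneg _) (Real.log_nonneg (by norm_num))

/-- the exceptional solutions -/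
theorem finite_exc : {x : K | x ^ 2 - x + 1 = 0}.Finite := by
  by_cases h : ∃ r : K, r ^ 2 - r + 1 = 0
  · obtain ⟨r, hr⟩ := h
    refine (Set.toFinite ({r, 1 - r} : Set K)).subset ?_
    intro x hx
    have hx' : x ^ 2 - x + 1 = 0 := hx
    have : (x - r) * (x - (1 - r)) = 0 := by linear_combination hx' - hr
    rcases mul_eq_zero.1 this with h1 | h1
    · exact Or.inl (sub_eq_zero.1 h1)
    · exact Or.inr (sub_eq_zero.1 h1)
  · push Not at h
    convert Set.finite_empty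
    ext x
    simp [h x]

/-- The unit equation has only finitely many solutions. -/
theorem finite_sol [CharZero K] (D : PlaceData K R) : {x : K | Sol R x}.Finite := by
  obtain ⟨B, hB⟩ := bounded_of_gap
    {g : D.ι → ℝ × ℝ | ∃ x : K, Sol R x ∧ x ^ 2 - x + 1 ≠ 0 ∧ g = D.lv x (1 - x)}
    (max 1 (Fintype.card D.ι : ℝ)) D.cst (le_max_left _ _) (cst_nonneg D) (by
      rintro _ ⟨x, hx, hx', rfl⟩ _ ⟨u, hu, -, rfl⟩ N
      obtain ⟨M, h1, h2, h3⟩ := exists_gap D x u hx hu hx' N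
      refine ⟨M, h1, h2, ?_⟩
      have h4 := norm_lv_le D x hx
      have h5 := ht_le D (u / x ^ (2 * M + 1)) ((1 - u) / (1 - x) ^ (2 * M + 1))
      rw [lv_twist D x u hx.ne0 hx.ne hu.ne0 hu.ne M] at h5
      have h6 : ((M : ℝ) + 1) * ‖D.lv x (1 - x)‖ ≤ ((M : ℝ) + 1) * D.ht x (1 - x) :=
        mul_le_mul_of_nonneg_left h4 (by positivity)
      have h7 : (Fintype.card D.ι : ℝ) * ‖D.lv u (1 - u) - (2 * (M : ℝ) + 1) • D.lv x (1 - x)‖ ≤
          max 1 (Fintype.card D.ι : ℝ) *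
            ‖D.lv u (1 - u) - (2 * (M : ℝ) + 1) • D.lv x (1 - x)‖ :=
        mul_le_mul_of_nonneg_right (le_max_right _ _) (norm_nonneg _)
      linarith)
  refine (((D.northcott (Real.exp (max B 0))).union finite_exc).subset ?_)
  intro x hx
  have hx1 : Sol R x := hx
  by_cases hx' : x ^ 2 - x + 1 = 0
  · exact Or.inr hx'
  · left
    refine ⟨hx1.mem, fun w => ?_⟩
    have h1 := hB _ ⟨x, hx1, hx', rfl⟩
    have h2 : ‖(D.lv x (1 - x) w).1‖ ≤ B :=
      (norm_fst_le _).trans ((norm_le_pi_norm (D.lv x (1 - x)) w).trans h1)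
    have h3 : (D.m w : ℝ) * Real.log (D.v w x) ≤ B := (le_abs_self _).trans h2
    have hpos := (D.v w).pos hx1.ne0
    rw [← Real.log_le_iff_le_exp hpos]
    have hm : (1 : ℝ) ≤ D.m w := by exact_mod_cast D.m_pos w
    rcases le_total (Real.log (D.v w x)) 0 with h4 | h4
    · exact h4.trans (le_max_right _ _)
    · refine le_trans ?_ (h3.trans (le_max_left _ _))
      nlinarith

end Pool.Agent.Work.SUnit
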