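import Mathlib

/-!
Padé type identities for the unit equation, obtained from the formal integrals
`∫ ((t - a)(t - b)(t - c))^N dt` between the three roots.
-/

set_option autoImplicit false

noncomputable section

namespace Pool.Agent.Work.SUnit

open Polynomial Finset

variable {K : Type*} [Field K] [CharZero K]

/-- formal primitive -/
def prim (P : K[X]) : K[X] := P.sum fun n a => C (a / (n + 1)) * X ^ (n + 1)

omit [CharZero K] in
theorem prim_monomial (n : ℕ) (a : K) : prim (monomial n a) = C (a / (n + 1)) * X ^ (n + 1) := by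
  unfold prim
  rw [sum_monomial_index]
  simp

theorem derivative_prim (P : K[X]) : derivative (prim P) = P := by
  unfold prim
  rw [Polynomial.sum_def, derivative_sum]
  conv_rhs => rw [← P.sum_monomial_eq, Polynomial.sum_def]
  refine Finset.sum_congr rfl fun n _ => ?_
  rw [derivative_C_mul_X_pow]
  have : ((n : K) + 1) ≠ 0 := by exact_mod_cast Nat.succ_ne_zero n
  rw [← C_mul_X_pow_eq_monomial]
  push_cast
  rw [div_mul_cancel₀ _ this]

/-- formal integral -/
def J (P : K[X]) (a b : K) : K := (prim P).eval b - (prim P).eval a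

theorem J_eq (P G : K[X]) (h : derivative G = P) (a b : K) :
    J P a b = G.eval b - G.eval a := by
  have h0 : derivative (prim P - G) = 0 := by
    rw [derivative_sub, derivative_prim, h, sub_self]
  have h1 := Polynomial.derivative_eq_zero.1 h0
  rw [natDegree_eq_zero] at h1
  obtain ⟨c, hc⟩ := h1
  have e1 : prim P = G + C c := by rw [hc]; ring
  unfold J
  rw [e1]
  simp

theorem J_add (P Q : K[X]) (a b : K) : J (P + Q) a b = J P a b + J Q a b := by
  rw [J_eq (P + Q) (prim P + prim Q) (by rw [derivative_add, derivative_prim, derivative_prim])]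
  unfold J
  simp only [eval_add]
  ring

theorem J_smul (c : K) (P : K[X]) (a b : K) : J (C c * P) a b = c * J P a b := by
  rw [J_eq (C c * P) (C c * prim P) (by rw [derivative_C_mul, derivative_prim])]
  unfold J
  simp only [eval_mul, eval_C]
  ring

theorem J_zero (a b : K) : J (0 : K[X]) a b = 0 := by
  rw [J_eq 0 0 (by simp)]; simp

theorem J_sum {ι : Type*} (s : Finset ι) (P : ι → K[X]) (a b : K) :
    J (∑ i ∈ s, P i) a b = ∑ i ∈ s, J (P i) a b := by
  classical
  induction s using Finset.induction_on with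
  | empty => simp [J_zero]
  | insert i s hi ih => rw [Finset.sum_insert hi, Finset.sum_insert hi, J_add, ih]

omit [CharZero K] in
theorem J_cycle (P : K[X]) (a b c : K) : J P a b + J P b c + J P c a = 0 := by
  unfold J; ring

/-- Beta integral -/
theorem J_beta (a b : K) (q p : ℕ) :
    J ((X - C a) ^ p * (C b - X) ^ q) a b * ((p + q + 1).factorial : K) =
      (b - a) ^ (p + q + 1) * (p.factorial : K) * (q.factorial : K) := by
  induction q generalizing p with
  | zero =>
    have hp : ((p : K) + 1) ≠ 0 := by exact_mod_cast Nat.succ_ne_zero p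
    rw [J_eq _ (C (1 / ((p : K) + 1)) * (X - C a) ^ (p + 1))]
    · simp only [eval_mul, eval_C, eval_pow, eval_sub, eval_X, sub_self, add_zero,
        Nat.factorial_succ, Nat.factorial_zero, Nat.cast_mul, Nat.cast_succ, Nat.cast_one]
      rw [zero_pow (Nat.succ_ne_zero p)]
      field_simp
      ring
    · rw [derivative_C_mul, derivative_pow, derivative_sub, derivative_X, derivative_C]
      simp only [sub_zero, mul_one, pow_zero, add_tsub_cancel_right]
      rw [← mul_assoc, ← C_mul]
      push_cast
      rw [one_div, inv_mul_cancel₀ hp]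
      simp
  | succ q ih =>
    have hp : ((p : K) + 1) ≠ 0 := by exact_mod_cast Nat.succ_ne_zero p
    have h1 : J ((X - C a) ^ p * (C b - X) ^ (q + 1)) a b -
        ((q : K) + 1) / (p + 1) * J ((X - C a) ^ (p + 1) * (C b - X) ^ q) a b = 0 := by
      have h2 : J ((X - C a) ^ p * (C b - X) ^ (q + 1) +
          C (-(((q : K) + 1) / (p + 1))) * ((X - C a) ^ (p + 1) * (C b - X) ^ q)) a b = 0 := by
        rw [J_eq _ (C (1 / ((p : K) + 1)) * ((X - C a) ^ (p + 1) * (C b - X) ^ (q + 1)))]
        · simp
        · rw [derivative_C_mul, derivative_mul, derivative_pow, derivative_pow, derivative_sub,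
            derivative_sub, derivative_X, derivative_C, derivative_C]
          simp only [sub_zero, mul_one, zero_sub, add_tsub_cancel_right, Nat.cast_add,
            Nat.cast_one]
          have e1 : C (1 / ((p : K) + 1)) * ((C ((p : K) + 1))) = 1 := by
            rw [← C_mul, one_div, inv_mul_cancel₀ hp, C_1]
          have e2 : C (-(((q : K) + 1) / (p + 1))) = - (C (1 / ((p : K) + 1)) * C ((q : K) + 1)) := by
            rw [← C_mul, ← C_neg]; congr 1; ring
          rw [e2]
          linear_combination ((X - C a) ^ p * (C b - X) ^ (q + 1)) * e1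
      rw [J_add, J_smul] at h2
      linear_combination h2
    have h3 := ih (p + 1)
    have h4 : J ((X - C a) ^ p * (C b - X) ^ (q + 1)) a b =
        ((q : K) + 1) / (p + 1) * J ((X - C a) ^ (p + 1) * (C b - X) ^ q) a b := by
      linear_combination h1
    rw [h4]
    have e : p + 1 + q + 1 = p + (q + 1) + 1 := by ring
    rw [e] at h3
    rw [Nat.factorial_succ q]
    rw [Nat.factorial_succ p] at h3
    rw [mul_assoc, h3]
    push_cast
    field_simp

/-- the polynomials of the identity -/
def W (R : Type*) [CommRing R] (N : ℕ) (x y : R) : R :=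
  ∑ m ∈ range (N + 1), ((N + m).choose N : R) * ((2 * N - m).choose N : R) * x ^ (N - m) * y ^ m

/-- the cubic polynomial with roots `a`, `b`, `c` -/
def cub (a b c : K) : K[X] := (X - C a) * (X - C b) * (X - C c)

omit [CharZero K] in
theorem cub_rot (a b c : K) : cub a b c = cub b c a := by
  unfold cub; ring

theorem key (a b c : K) (hab : a ≠ b) (N : ℕ) :
    ((3 * N + 1).factorial : K) * J (cub a b c ^ N) a b =
      (-1) ^ N * (N.factorial : K) ^ 3 * (b - a) ^ (2 * N + 1) * W K N (a - c) (b - c) := by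
  have hba : b - a ≠ 0 := sub_ne_zero.2 (Ne.symm hab)
  have h1 : C ((b - a) ^ N) * cub a b c ^ N = ∑ m ∈ range (N + 1),
      C ((-1) ^ N * (N.choose m : K) * (a - c) ^ (N - m) * (b - c) ^ m) *
        ((X - C a) ^ (N + m) * (C b - X) ^ (2 * N - m)) := by
    have e : C ((b - a) ^ N) * cub a b c ^ N =
        (-1) ^ N * ((X - C a) ^ N * (C b - X) ^ N) *
          (C (b - c) * (X - C a) + C (a - c) * (C b - X)) ^ N := by
      have e0 : C (b - a) * cub a b c = (-1) * ((X - C a) * (C b - X)) *
          (C (b - c) * (X - C a) + C (a - c) * (C b - X)) := by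
        unfold cub
        simp only [C_sub]
        ring
      rw [C_pow, ← mul_pow, e0]
      rw [mul_pow, mul_pow, mul_pow]
    rw [e, add_pow, Finset.mul_sum]
    refine Finset.sum_congr rfl fun m hm => ?_
    have hm' : m ≤ N := Nat.lt_succ_iff.1 (Finset.mem_range.1 hm)
    have e2 : 2 * N - m = N + (N - m) := by omega
    rw [e2]
    simp only [C_mul, C_pow, C_neg, C_1, mul_pow, pow_add, map_natCast, map_sub, C_sub]
    ring
  have h2 : J (C ((b - a) ^ N) * cub a b c ^ N) a b = _ := congrArg (fun P => J P a b) h1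
  rw [J_smul, J_sum] at h2
  simp_rw [J_smul] at h2
  have h3 : ((3 * N + 1).factorial : K) * ((b - a) ^ N * J (cub a b c ^ N) a b) =
      (b - a) ^ N * ((-1) ^ N * (N.factorial : K) ^ 3 * (b - a) ^ (2 * N + 1) *
        W K N (a - c) (b - c)) := by
    rw [h2, Finset.mul_sum, W, Finset.mul_sum, Finset.mul_sum]
    refine Finset.sum_congr rfl fun m hm => ?_
    have hm' : m ≤ N := Nat.lt_succ_iff.1 (Finset.mem_range.1 hm)
    have hb := J_beta a b (2 * N - m) (N + m)
    have e3 : N + m + (2 * N - m) + 1 = 3 * N + 1 := by omega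
    rw [e3] at hb
    have hc1 : ((N + m).choose N : K) * ((N.factorial : K) * (m.factorial : K)) =
        ((N + m).factorial : K) := by
      have := Nat.add_choose_mul_factorial_mul_factorial m N
      rw [add_comm m N] at this
      rw [← this]
      push_cast
      ring
    have hc2 : ((2 * N - m).choose N : K) * ((N.factorial : K) * ((N - m).factorial : K)) =
        ((2 * N - m).factorial : K) := by
      have := Nat.add_choose_mul_factorial_mul_factorial (N - m) N
      have e4 : N - m + N = 2 * N - m := by omega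
      rw [e4] at this
      rw [← this]
      push_cast
      ring
    have hc3 : (N.choose m : K) * ((m.factorial : K) * ((N - m).factorial : K)) =
        (N.factorial : K) := by
      have := Nat.choose_mul_factorial_mul_factorial hm'
      rw [← this]
      push_cast
      ring
    have e5 : (b - a) ^ (3 * N + 1) = (b - a) ^ N * (b - a) ^ (2 * N + 1) := by
      rw [← pow_add]; congr 1; ring
    rw [e5] at hb
    have hcc : (N.choose m : K) * (((N + m).factorial : K) * ((2 * N - m).factorial : K)) =
        (N.factorial : K) ^ 3 * ((N + m).choose N : K) * ((2 * N - m).choose N : K) := by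
      rw [← hc1, ← hc2]
      linear_combination ((N + m).choose N : K) * ((2 * N - m).choose N : K) *
        (N.factorial : K) ^ 2 * hc3
    calc ((3 * N + 1).factorial : K) * ((-1) ^ N * (N.choose m : K) * (a - c) ^ (N - m) *
          (b - c) ^ m * J ((X - C a) ^ (N + m) * (C b - X) ^ (2 * N - m)) a b)
        = (-1) ^ N * (N.choose m : K) * (a - c) ^ (N - m) * (b - c) ^ m *
          (J ((X - C a) ^ (N + m) * (C b - X) ^ (2 * N - m)) a b *
            ((3 * N + 1).factorial : K)) := by ring
      _ = (-1) ^ N * (a - c) ^ (N - m) * (b - c) ^ m * ((b - a) ^ N * (b - a) ^ (2 * N + 1)) *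
          ((N.choose m : K) * (((N + m).factorial : K) * ((2 * N - m).factorial : K))) := by
            rw [hb]; ring
      _ = _ := by rw [hcc]; ring
  have h4 : (b - a) ^ N ≠ 0 := pow_ne_zero _ hba
  apply mul_left_cancel₀ h4
  rw [← h3]
  ring

/-! ### recurrences -/

theorem J_by_parts (G P : K[X]) (s t : K) (h : derivative G = P) (hs : G.eval s = 0)
    (ht : G.eval t = 0) : J P s t = 0 := by
  rw [J_eq P G h, hs, ht, sub_zero]

section
variable (p q s t : K)

/-- the centred cubic -/
def cf (p q : K) : K[X] := X ^ 3 + C p * X + C q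

omit [CharZero K] in
theorem derivative_cf : derivative (cf p q) = C 3 * X ^ 2 + C p := by
  unfold cf
  simp only [derivative_add, derivative_X_pow, derivative_C_mul, derivative_X, derivative_C]
  norm_num

/-- the two basic integrals -/
def I0 (N : ℕ) : K := J (cf p q ^ N) s t
def I1 (N : ℕ) : K := J (X * cf p q ^ N) s t

variable (hs : (cf p q).eval s = 0) (ht : (cf p q).eval t = 0)
include hs ht

theorem rel_one (N : ℕ) : 3 * J (X ^ 2 * cf p q ^ N) s t + p * I0 p q s t N = 0 := by
  have h := J_by_parts (C (1 / ((N : K) + 1)) * cf p q ^ (N + 1))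
    (C 3 * (X ^ 2 * cf p q ^ N) + C p * cf p q ^ N) s t
    (by
      rw [derivative_C_mul, derivative_pow, derivative_cf]
      have hN : ((N : K) + 1) ≠ 0 := by exact_mod_cast Nat.succ_ne_zero N
      have e1 : C (1 / ((N : K) + 1)) * ((C ((N : K) + 1))) = 1 := by
        rw [← C_mul, one_div, inv_mul_cancel₀ hN, C_1]
      simp only [add_tsub_cancel_right, Nat.cast_add, Nat.cast_one]
      linear_combination (cf p q ^ N * (C 3 * X ^ 2 + C p)) * e1)
    (by simp [hs]) (by simp [ht])
  rw [J_add, J_smul, J_smul] at h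
  exact h

theorem rel_two (N : ℕ) : I0 p q s t (N + 1) +
    ((N : K) + 1) * (3 * J (X ^ 3 * cf p q ^ N) s t + p * I1 p q s t N) = 0 := by
  have h := J_by_parts (X * cf p q ^ (N + 1))
    (cf p q ^ (N + 1) + (C (((N : K) + 1) * 3) * (X ^ 3 * cf p q ^ N) +
      C (((N : K) + 1) * p) * (X * cf p q ^ N))) s t
    (by
      rw [derivative_mul, derivative_X, derivative_pow, derivative_cf]
      simp only [add_tsub_cancel_right, Nat.cast_add, Nat.cast_one, C_mul]
      ring)
    (by simp [hs]) (by simp [ht])
  rw [J_add, J_add, J_smul, J_smul] at h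
  unfold I0 I1
  linear_combination h

omit [CharZero K] hs ht in
theorem cf_succ (N : ℕ) : cf p q ^ (N + 1) =
    X ^ 3 * cf p q ^ N + (C p * (X * cf p q ^ N) + C q * cf p q ^ N) := by
  rw [pow_succ]
  conv_lhs => rw [mul_comm]; rw [show cf p q * cf p q ^ N = (X ^ 3 + C p * X + C q) * cf p q ^ N from rfl]
  ring

omit hs ht in
theorem rel_three (N : ℕ) : I0 p q s t (N + 1) =
    J (X ^ 3 * cf p q ^ N) s t + p * I1 p q s t N + q * I0 p q s t N := by
  unfold I0 I1
  rw [cf_succ, J_add, J_add, J_smul, J_smul]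
  ring

theorem rel_four (N : ℕ) : 2 * I1 p q s t (N + 1) +
    ((N : K) + 1) * (3 * J (X ^ 4 * cf p q ^ N) s t + p * J (X ^ 2 * cf p q ^ N) s t) = 0 := by
  have h := J_by_parts (X ^ 2 * cf p q ^ (N + 1))
    (C 2 * (X * cf p q ^ (N + 1)) + (C (((N : K) + 1) * 3) * (X ^ 4 * cf p q ^ N) +
      C (((N : K) + 1) * p) * (X ^ 2 * cf p q ^ N))) s t
    (by
      rw [derivative_mul, derivative_X_pow, derivative_pow, derivative_cf]
      simp only [add_tsub_cancel_right, Nat.cast_add, Nat.cast_one, C_mul, Nat.cast_ofNat,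
        Nat.reduceSub, pow_one]
      ring)
    (by simp [hs]) (by simp [ht])
  rw [J_add, J_add, J_smul, J_smul, J_smul] at h
  unfold I1
  linear_combination h

omit hs ht in
theorem rel_five (N : ℕ) : I1 p q s t (N + 1) =
    J (X ^ 4 * cf p q ^ N) s t + p * J (X ^ 2 * cf p q ^ N) s t + q * I1 p q s t N := by
  unfold I1
  have e : X * cf p q ^ (N + 1) =
      X ^ 4 * cf p q ^ N + (C p * (X ^ 2 * cf p q ^ N) + C q * (X * cf p q ^ N)) := by
    rw [cf_succ]; ring
  rw [e, J_add, J_add, J_smul, J_smul]
  ring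

theorem rec_zero (N : ℕ) : (3 * (N : K) + 4) * I0 p q s t (N + 1) =
    ((N : K) + 1) * (2 * p * I1 p q s t N + 3 * q * I0 p q s t N) := by
  have h2 := rel_two p q s t hs ht N
  have h3 := rel_three p q s t N
  linear_combination h2 + 3 * ((N : K) + 1) * h3

theorem rec_one (N : ℕ) : 3 * (3 * (N : K) + 5) * I1 p q s t (N + 1) =
    ((N : K) + 1) * (9 * q * I1 p q s t N - 2 * p ^ 2 * I0 p q s t N) := by
  have h1 := rel_one p q s t hs ht N
  have h4 := rel_four p q s t hs ht N
  have h5 := rel_five p q s t N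
  linear_combination 3 * h4 + 9 * ((N : K) + 1) * h5 + (2 * p * ((N : K) + 1)) * h1

end

/-- non-vanishing of the determinant of the two basic integrals over two cycles -/
theorem det_ne (p q a b c : K) (ha : (cf p q).eval a = 0) (hb : (cf p q).eval b = 0)
    (hc : (cf p q).eval c = 0) (hab : a ≠ b) (hbc : b ≠ c) (hca : c ≠ a)
    (hd : 4 * p ^ 3 + 27 * q ^ 2 ≠ 0) (N : ℕ) :
    I0 p q b c N * I1 p q c a N - I0 p q c a N * I1 p q b c N ≠ 0 := by
  induction N with
  | zero =>
    have e0 : ∀ s t : K, I0 p q s t 0 = t - s := by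
      intro s t
      unfold I0
      rw [J_eq _ X (by simp)]
      simp
    have e1 : ∀ s t : K, I1 p q s t 0 = (t ^ 2 - s ^ 2) / 2 := by
      intro s t
      unfold I1
      rw [J_eq _ (C (1 / 2) * X ^ 2)]
      · simp only [eval_mul, eval_C, eval_pow, eval_X]; ring
      · rw [derivative_C_mul, derivative_X_pow, pow_zero, mul_one]
        simp only [Nat.cast_ofNat, Nat.reduceSub, pow_one]
        rw [← mul_assoc, ← C_mul]
        norm_num
    rw [e0, e0, e1, e1]
    have : (c - b) * ((a ^ 2 - c ^ 2) / 2) - (a - c) * ((c ^ 2 - b ^ 2) / 2) =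
        (c - b) * (a - c) * (a - b) / 2 := by ring
    rw [this]
    exact div_ne_zero (mul_ne_zero (mul_ne_zero (sub_ne_zero.2 hbc.symm) (sub_ne_zero.2 hca.symm))
      (sub_ne_zero.2 hab)) two_ne_zero
  | succ N ih =>
    intro h
    apply ih
    have r1 := rec_zero p q b c hb hc N
    have r2 := rec_one p q b c hb hc N
    have r3 := rec_zero p q c a hc ha N
    have r4 := rec_one p q c a hc ha N
    have hN : ((N : K) + 1) ≠ 0 := by exact_mod_cast Nat.succ_ne_zero N
    have key1 : ((N : K) + 1) ^ 2 * (4 * p ^ 3 + 27 * q ^ 2) *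
        (I0 p q b c N * I1 p q c a N - I0 p q c a N * I1 p q b c N) = 0 := by
      have : (3 * (3 * (N : K) + 4) * (3 * (N : K) + 5)) *
          (I0 p q b c (N + 1) * I1 p q c a (N + 1) - I0 p q c a (N + 1) * I1 p q b c (N + 1)) = 0 := by
        rw [h, mul_zero]
      have e : (3 * (3 * (N : K) + 4) * (3 * (N : K) + 5)) *
          (I0 p q b c (N + 1) * I1 p q c a (N + 1) - I0 p q c a (N + 1) * I1 p q b c (N + 1)) =
          ((3 * (N : K) + 4) * I0 p q b c (N + 1)) * (3 * (3 * (N : K) + 5) * I1 p q c a (N + 1)) -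
          ((3 * (N : K) + 4) * I0 p q c a (N + 1)) * (3 * (3 * (N : K) + 5) * I1 p q b c (N + 1)) := by
        ring
      rw [e, r1, r2, r3, r4] at this
      linear_combination this
    have h2 := mul_ne_zero (pow_ne_zero 2 hN) hd
    exact (mul_eq_zero.1 key1).resolve_left h2

/-- consecutive integrals over two cycles are not proportional -/
theorem det_succ_ne (p q a b c : K) (ha : (cf p q).eval a = 0) (hb : (cf p q).eval b = 0)
    (hc : (cf p q).eval c = 0) (hab : a ≠ b) (hbc : b ≠ c) (hca : c ≠ a)
    (hd : 4 * p ^ 3 + 27 * q ^ 2 ≠ 0) (hp : p ≠ 0) (N : ℕ) :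
    I0 p q b c N * I0 p q c a (N + 1) - I0 p q c a N * I0 p q b c (N + 1) ≠ 0 := by
  intro h
  apply det_ne p q a b c ha hb hc hab hbc hca hd N
  have r1 := rec_zero p q b c hb hc N
  have r3 := rec_zero p q c a hc ha N
  have hN : ((N : K) + 1) ≠ 0 := by exact_mod_cast Nat.succ_ne_zero N
  have : (((N : K) + 1) * (2 * p)) *
      (I0 p q b c N * I1 p q c a N - I0 p q c a N * I1 p q b c N) = 0 := by
    linear_combination (3 * (N : K) + 4) * h - (I0 p q b c N) * r3 + (I0 p q c a N) * r1
  exact (mul_eq_zero.1 this).resolve_left (mul_ne_zero hN (mul_ne_zero two_ne_zero hp))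

/-! ### the identities for a solution of `x + y = 1` -/

theorem pade (x : K) (hx0 : x ≠ 0) (hx1 : x ≠ 1) (N : ℕ) :
    x ^ (2 * N + 1) * W K N (-1) (-(1 - x)) + (1 - x) ^ (2 * N + 1) * W K N x 1 =
      W K N (1 - x) (-x) := by
  set a : K := (2 - x) / 3 with ha
  set b : K := a - 1 with hb
  set c : K := a - 1 + x with hc
  have hba : b - a = -1 := by rw [hb]; ring
  have hcb : c - b = x := by rw [hc, hb]; ring
  have hac : a - c = 1 - x := by rw [hc]; ring
  have hab : a ≠ b := fun h => by rw [← h] at hba; simp at hba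
  have hbc : b ≠ c := fun h => by rw [← h] at hcb; exact hx0 (by rw [← hcb]; ring)
  have hca : c ≠ a := fun h => hx1 (by linear_combination hac + h)
  have k1 := key a b c hab N
  have k2 := key b c a hbc N
  have k3 := key c a b hca N
  rw [← cub_rot] at k2
  rw [← cub_rot, ← cub_rot] at k3
  have hcyc := J_cycle (cub a b c ^ N) a b c
  have e1 : b - c = -x := by rw [← hcb]; ring
  have e2 : c - a = -(1 - x) := by rw [← hac]; ring
  have e3 : a - b = 1 := by rw [hb]; ring
  rw [hba, hac, e1] at k1
  rw [hcb, hba, e2] at k2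
  rw [hac, hcb, e3] at k3
  have hf : ((N.factorial : K)) ^ 3 ≠ 0 := pow_ne_zero _ (by exact_mod_cast N.factorial_ne_zero)
  have hs : ((-1 : K)) ^ N ≠ 0 := pow_ne_zero _ (by norm_num)
  have h4 : (-1 : K) ^ (2 * N + 1) = -1 := by rw [pow_succ, pow_mul]; norm_num
  rw [h4] at k1
  have h5 : ((-1 : K) ^ N * (N.factorial : K) ^ 3) *
      (x ^ (2 * N + 1) * W K N (-1) (-(1 - x)) + (1 - x) ^ (2 * N + 1) * W K N x 1 -
        W K N (1 - x) (-x)) = 0 := by
    linear_combination ((3 * N + 1).factorial : K) * hcyc - k1 - k2 - k3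
  have h6 := (mul_eq_zero.1 h5).resolve_left (mul_ne_zero hs hf)
  linear_combination h6

theorem pade_indep (x : K) (hx0 : x ≠ 0) (hx1 : x ≠ 1) (hx : x ^ 2 - x + 1 ≠ 0) (N : ℕ) :
    (x ^ (2 * N + 1) * W K N (-1) (-(1 - x))) *
        ((1 - x) ^ (2 * (N + 1) + 1) * W K (N + 1) x 1) ≠
      ((1 - x) ^ (2 * N + 1) * W K N x 1) *
        (x ^ (2 * (N + 1) + 1) * W K (N + 1) (-1) (-(1 - x))) := by
  set a : K := (2 - x) / 3 with ha
  set b : K := a - 1 with hb
  set c : K := a - 1 + x with hc
  have hba : b - a = -1 := by rw [hb]; ring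
  have hcb : c - b = x := by rw [hc, hb]; ring
  have hac : a - c = 1 - x := by rw [hc]; ring
  have hab : a ≠ b := fun h => by rw [← h] at hba; simp at hba
  have hbc : b ≠ c := fun h => by rw [← h] at hcb; exact hx0 (by rw [← hcb]; ring)
  have hca : c ≠ a := fun h => hx1 (by linear_combination hac + h)
  have hsum : a + b + c = 0 := by rw [hc, hb, ha]; ring
  set p : K := a * b + b * c + c * a with hp
  set q : K := -(a * b * c) with hq
  have hcub : cub a b c = cf p q := by
    have hc' : c = -(a + b) := by linear_combination hsum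
    unfold cub cf
    rw [hp, hq, hc']
    simp only [C_add, C_mul, C_neg]
    ring
  have hroot : ∀ r : K, (r = a ∨ r = b ∨ r = c) → (cf p q).eval r = 0 := by
    intro r hr
    rw [← hcub]
    unfold cub
    simp only [eval_mul, eval_sub, eval_X, eval_C]
    rcases hr with rfl | rfl | rfl <;> ring
  have hd : 4 * p ^ 3 + 27 * q ^ 2 ≠ 0 := by
    have hc' : c = -(a + b) := by linear_combination hsum
    have e : 4 * p ^ 3 + 27 * q ^ 2 = -((a - b) * (b - c) * (c - a)) ^ 2 := by
      rw [hp, hq, hc']; ring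
    rw [e]
    exact neg_ne_zero.2 (pow_ne_zero _ (mul_ne_zero (mul_ne_zero (sub_ne_zero.2 hab)
      (sub_ne_zero.2 hbc)) (sub_ne_zero.2 hca)))
  have hp0 : p ≠ 0 := by
    intro h
    apply hx
    have : p = -(x ^ 2 - x + 1) / 3 := by
      rw [hp, hc, hb, ha]; ring
    rw [this] at h
    have h3 : (3 : K) ≠ 0 := by norm_num
    field_simp at h
    linear_combination -h
  have hdet := det_succ_ne p q a b c (hroot a (Or.inl rfl)) (hroot b (Or.inr (Or.inl rfl)))
    (hroot c (Or.inr (Or.inr rfl))) hab hbc hca hd hp0 N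
  have k2 := key b c a hbc N
  have k3 := key c a b hca N
  have k2' := key b c a hbc (N + 1)
  have k3' := key c a b hca (N + 1)
  rw [← cub_rot, hcub] at k2 k2'
  rw [← cub_rot, ← cub_rot, hcub] at k3 k3'
  have e2 : c - a = -(1 - x) := by rw [← hac]; ring
  have e3 : a - b = 1 := by rw [hb]; ring
  rw [hcb, hba, e2] at k2 k2'
  rw [hac, hcb, e3] at k3 k3'
  intro h
  apply hdet
  unfold I0
  have f1 : ((3 * N + 1).factorial : K) ≠ 0 := by exact_mod_cast Nat.factorial_ne_zero _
  have f2 : ((3 * (N + 1) + 1).factorial : K) ≠ 0 := by exact_mod_cast Nat.factorial_ne_zero _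
  have h7 : (((3 * N + 1).factorial : K) * ((3 * (N + 1) + 1).factorial : K)) *
      (J (cf p q ^ N) b c * J (cf p q ^ (N + 1)) c a -
        J (cf p q ^ N) c a * J (cf p q ^ (N + 1)) b c) = 0 := by
    have e : (((3 * N + 1).factorial : K) * ((3 * (N + 1) + 1).factorial : K)) *
      (J (cf p q ^ N) b c * J (cf p q ^ (N + 1)) c a -
        J (cf p q ^ N) c a * J (cf p q ^ (N + 1)) b c) =
        (((3 * N + 1).factorial : K) * J (cf p q ^ N) b c) *
          (((3 * (N + 1) + 1).factorial : K) * J (cf p q ^ (N + 1)) c a) -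
        (((3 * N + 1).factorial : K) * J (cf p q ^ N) c a) *
          (((3 * (N + 1) + 1).factorial : K) * J (cf p q ^ (N + 1)) b c) := by ring
    rw [e, k2, k3, k2', k3']
    linear_combination ((-1) ^ N * (N.factorial : K) ^ 3 *
      ((-1) ^ (N + 1) * ((N + 1).factorial : K) ^ 3)) * h
  exact (mul_eq_zero.1 h7).resolve_left (mul_ne_zero f1 f2)

end Pool.Agent.Work.SUnit
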